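import Mathlib
import Pool.Agent.Lib.MP_95e7ec_an.Ball.Main

/-!
# Smoothed analysis of Hilbert's sixteenth problem

There is an absolute constant `K` such that for all planar polynomial fields `X_1, …, X_m` of degree
at most `n`, all `c ∈ ℂ^m` and all `τ > 0` the expected number of closed orbits of
`∑ (c_p + τ g_p) X_p` in the whole plane, `g` a standard Gaussian vector of `ℂ^m`, is at most
`K n^6 (1 + log n) (1 + |c| / τ)`.

With `X_p` the fields `x^i y^j`, `i + j ≤ n`, this says: for every field `X` of degree at most `n`
the Gaussian perturbation `X + τ G` has in the mean at most `K n^6 (1 + log n) (1 + |X| / τ)` closed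
orbits. With `m = 1`, `c = 0` it is a bound for the mean over the rotations `e^{ia} X` of an
arbitrary field `X`.
-/

set_option autoImplicit false

open scoped ENNReal
open MeasureTheory ProbabilityTheory

namespace Pool.Agent.Results.MP_95e7ec_an.MeanAllDegrees

open Pool.Agent.Lib.MP_95e7ec_an

/-- **The mean number of closed orbits of the Gaussian perturbations of an arbitrary field.** There
is an absolute constant `K` such that for all `n ≥ 1`, all real planar polynomial fields
`X_1, …, X_m` of degree at most `n`, all `c ∈ ℂ^m` and all `τ > 0`: the number of the closed orbits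
of `∑ g_p X_p` is a measurable function of `g ∈ ℂ^m`, and the expected number of the closed orbits
of `∑ (c_p + τ g_p) X_p`, where the real and imaginary parts of the `g_p` are independent standard
normal variables, is at most `K n^6 (1 + log n) (1 + |c| / τ)`. -/
theorem result : ∃ K : ℝ, ∀ (n m : ℕ)
    (X : Fin m → MvPolynomial (Fin 2) ℝ × MvPolynomial (Fin 2) ℝ) (c : Fin m → ℝ × ℝ) (τ : ℝ),
    1 ≤ n → (∀ p, (X p).1.totalDegree ≤ n ∧ (X p).2.totalDegree ≤ n) → 0 < τ →
      (Measurable fun g : Fin m → ℝ × ℝ =>
        (({C : Set (ℝ × ℝ) | IsClosedOrbit (combC X g) C}.encard : ℕ∞) : ℝ≥0∞)) ∧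
      ∫⁻ g, (({C : Set (ℝ × ℝ) |
          IsClosedOrbit (combC X (fun p => c p + τ • g p)) C}.encard : ℕ∞) : ℝ≥0∞)
        ∂(Measure.pi fun _ : Fin m => (gaussianReal 0 1).prod (gaussianReal 0 1)) ≤
        ENNReal.ofReal (K * (n ^ 6 * (1 + Real.log n)) *
          (1 + Real.sqrt (∑ p, ((c p).1 ^ 2 + (c p).2 ^ 2)) / τ)) :=
  smooth_theorem

end Pool.Agent.Results.MP_95e7ec_an.MeanAllDegrees
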