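import Mathlib
import Pool.Agent.Lib.MP_95e7ec_an.Rc.Final2

/-!
# The number of the closed orbits which persist under rotation of the field

For every real planar polynomial field `X` of degree at most `n` and every `0 < δ ≤ 1` at most
`3000000 n² / δ³` closed orbits of `X`, anywhere in the plane, persist for all the turned fields
`e^{ia} X`, `0 ≤ a ≤ δ`.
-/

set_option autoImplicit false

namespace Pool.Agent.Results.MP_95e7ec_an.PersistentCycles

open Pool.Agent.Lib.MP_95e7ec_an

/-- **A restricted Hilbert 16th problem.** Let `X = (P, Q)` be a real planar polynomial field of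
degree at most `n` and `0 < δ ≤ 1`. The set of the closed orbits of `X` which belong to a continuous
family of periodic solutions of the turned fields `e^{ia} X`, `0 ≤ a ≤ δ`, is finite and has at most
`3000000 n² / δ³` elements. -/
theorem result (n : ℕ) (hn : 1 ≤ n) (P Q : MvPolynomial (Fin 2) ℝ) (hP : P.totalDegree ≤ n)
    (hQ : Q.totalDegree ≤ n) (δ : ℝ) (hδ : 0 < δ) (hδ1 : δ ≤ 1) :
    {C : Set (ℝ × ℝ) | Persists (vf P Q) δ C}.Finite ∧
      ({C : Set (ℝ × ℝ) | Persists (vf P Q) δ C}.ncard : ℝ) ≤ 3000000 * (n : ℝ) ^ 2 / δ ^ 3 :=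
  persists_finite2 hn hP hQ hδ hδ1

end Pool.Agent.Results.MP_95e7ec_an.PersistentCycles
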