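import Mathlib
import Pool.Agent.Lib.MP_95e7ec_an.Defs
import Pool.Agent.Lib.MP_95e7ec_an.Hn.Four

/-!
# The Hilbert numbers exceed every power `n ^ p` with `p < 4`

`hilbertNumber n` is the supremum of the number of limit cycles over all real planar polynomial
systems of degree at most `n`, in `ℕ ∪ {∞}`. The result is `H_n ≥ n ^ p` for all large `n`, for
every real `p < 4`. In particular `H_n` is not `O(n³)`.
-/

set_option autoImplicit false

namespace Pool.Agent.Results.MP_95e7ec_an.QuarticGrowth

open Pool.Agent.Lib.MP_95e7ec_an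

/-- **Lower bound for the Hilbert numbers.** For every `p < 4` one has `H_n ≥ n ^ p` for all
large `n`. -/
theorem result (p : ℝ) (hp : p < 4) : ∃ n0 : ℕ, ∀ n : ℕ, n0 ≤ n →
    ENNReal.ofReal ((n : ℝ) ^ p) ≤ ((hilbertNumber n : ℕ∞) : ENNReal) :=
  Hn.hilbert_growth p hp

end Pool.Agent.Results.MP_95e7ec_an.QuarticGrowth
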