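import Mathlib
import Pool.Agent.Lib.MP_95e7ec_an.Sm.GFin2

/-!
# Smoothed analysis of Hilbert's 16th problem

Every real planar polynomial field of degree at most `n` is
`field n a : (x,y) ↦ ∑_{i+j≤n} √(n!/(i! j! (n-i-j)!)) x^i y^j a_{ij}` for exactly one array `a` of plane
vectors `a_{ij}`. Let `b` be ANY array, `τ > 0`, `0 ≤ δ ≤ 1`, let `g` be a standard Gaussian array and
`u` uniform in `[0,1]`, independent. We show that the expected number of all the closed orbits in the
whole plane (so of all the limit cycles and more) of `field n (e^{iδu} b + τ g)` is at most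
`K n x / (1 + δ x) (1 + log (n x))⁵`, `x = 1 + |b|/τ`, where `K` is an absolute constant.
-/

set_option autoImplicit false

open Set Filter Topology MeasureTheory ProbabilityTheory
open scoped ENNReal

namespace Pool.Agent.Results.MP_95e7ec_an.SmoothedHilbert

open Pool.Agent.Lib.MP_95e7ec_an

/-- The exponents `(i,j)` of the monomials `x^i y^j` of degree at most `n`. -/
abbrev Idx (n : ℕ) := {p : Fin (n + 1) × Fin (n + 1) // (p.1 : ℕ) + (p.2 : ℕ) ≤ n}

/-- The field of degree at most `n` with coefficients `a`: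
`(x,y) ↦ ∑_{i+j≤n} √(n!/(i! j! (n-i-j)!)) x^i y^j a_{ij}`. -/
noncomputable def field (n : ℕ) (a : Idx n → ℝ × ℝ) (z : ℝ × ℝ) : ℝ × ℝ :=
  ∑ p : Idx n, (Real.sqrt ((n.factorial : ℝ) / ((p.1.1 : ℕ).factorial * (p.1.2 : ℕ).factorial *
    (n - (p.1.1 : ℕ) - (p.1.2 : ℕ)).factorial)) * (z.1 ^ (p.1.1 : ℕ) * z.2 ^ (p.1.2 : ℕ))) • a p

/-- The array `e^{iα} a`; the field is turned by the angle `α`. -/
noncomputable def turnBy {n : ℕ} (α : ℝ) (a : Idx n → ℝ × ℝ) : Idx n → ℝ × ℝ := fun p =>
  (Real.cos α * (a p).1 - Real.sin α * (a p).2, Real.sin α * (a p).1 + Real.cos α * (a p).2)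

/-- The Euclidean norm of an array of coefficients. -/
noncomputable def norm2 {n : ℕ} (a : Idx n → ℝ × ℝ) : ℝ :=
  Real.sqrt (∑ p, ((a p).1 ^ 2 + (a p).2 ^ 2))

/-- The law of an array of independent standard Gaussian plane vectors. -/
noncomputable def gauss (n : ℕ) : Measure (Idx n → ℝ × ℝ) :=
  Measure.pi fun _ => (gaussianReal 0 1).prod (gaussianReal 0 1)

/-- The number of all the closed orbits of the field `v`, an extended nonnegative number. -/
noncomputable def orbitNumber (v : ℝ × ℝ → ℝ × ℝ) : ℝ≥0∞ :=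
  (({C : Set (ℝ × ℝ) | IsClosedOrbit v C}.encard : ℕ∞) : ℝ≥0∞)

theorem field_eq (n : ℕ) (a : Idx n → ℝ × ℝ) : field n a = kVF n a := by
  funext z
  unfold kVF vf field
  refine Prod.ext ?_ ?_
  · simp only [KosKernel_eval, Prod.fst_sum, Prod.smul_fst, smul_eq_mul, kw]
    exact Finset.sum_congr rfl fun p _ => by ring
  · simp only [KosKernel_eval, Prod.snd_sum, Prod.smul_snd, smul_eq_mul, kw]
    exact Finset.sum_congr rfl fun p _ => by ring

theorem orbitNumber_eq (v : ℝ × ℝ → ℝ × ℝ) :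
    orbitNumber v = cntO v Set.univ (∅ : Finset ℕ) (fun _ => ∅) := by
  unfold orbitNumber cntO
  congr 2
  ext C
  simp

theorem turnBy_eq {n : ℕ} (α : ℝ) (a : Idx n → ℝ × ℝ) : turnBy α a = krot α a := rfl

/-- **Smoothed analysis of Hilbert's 16th problem.** There is an absolute constant `K` such that
for every `n ≥ 1` the number of all the closed orbits in the plane is a measurable function of the
coefficients, and for every array `b` of coefficients, every `τ > 0` and every `0 ≤ δ ≤ 1` the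
expected number of the closed orbits of `field n (e^{iδu} b + τ g)`, `u` uniform in `[0,1]` and `g`
standard Gaussian, is at most `K n x / (1 + δ x) (1 + log (n x))⁵`, `x = 1 + |b|/τ`. -/
theorem result : ∃ K : ℝ, ∀ n : ℕ, 1 ≤ n →
    Measurable (fun a : Idx n → ℝ × ℝ => orbitNumber (field n a)) ∧
    ∀ (b : Idx n → ℝ × ℝ) (τ δ x : ℝ), 0 < τ → 0 ≤ δ → δ ≤ 1 → x = 1 + norm2 b / τ →
      ∫⁻ u in Set.Icc (0 : ℝ) 1,
        (∫⁻ g, orbitNumber (field n (turnBy (δ * u) b + τ • g)) ∂gauss n) ≤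
        ENNReal.ofReal (K * n * (x / (1 + δ * x)) * (1 + Real.log (n * x)) ^ 5) := by
  obtain ⟨K, -, h⟩ := smoothed_rot
  refine ⟨K, fun n hn => ⟨?_, fun b τ δ x hτ hδ0 hδ1 hx => ?_⟩⟩
  · simp only [orbitNumber_eq, field_eq]
    exact km_measurable_cntO n isOpen_univ ∅ (by simp)
  · simp only [orbitNumber_eq, field_eq, turnBy_eq]
    rw [hx]
    exact h n hn b τ δ hτ hδ0 hδ1

end Pool.Agent.Results.MP_95e7ec_an.SmoothedHilbert
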